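import Mathlib.NumberTheory.Dioph
import Mathlib.Data.Nat.Choose.Basic
import Mathlib.Data.Nat.Factorial.BigOperators
import Mathlib.Data.Nat.ChineseRemainder
import Mathlib.Data.Int.ModEq
import Mathlib

/-!
# DP54.Arith: the arithmetic of the bounded universal quantifier (pure number theory).

Let `(N!)^2 ∣ c + 1` and `n ≤ N`, `3 ≤ N`. For `i < n` put `m i = (c - i) / (i + 1)
= (c + 1) / (i + 1) - 1`. Then `c - i = m i * (i + 1)`, every prime factor of `m i` is `> N`
(since `N! ∣ m i + 1`), the `m i` are pairwise coprime (a common prime divides `j - i`, of size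
`< n ≤ N`), `m i ≥ 2`, and `∏ i < n, m i = C(c, n)`.
-/

namespace DP54

/-- The moduli. -/
def mm (c i : ℕ) : ℕ := (c - i) / (i + 1)

theorem mm_mul {N c n i : ℕ} (hN : n ≤ N) (hc : (N.factorial) ^ 2 ∣ c + 1) (hi : i < n) :
    mm c i * (i + 1) = c - i ∧ i ≤ c ∧ N.factorial ∣ mm c i + 1 := by
  have h2 : (i + 1) ∣ N.factorial := Nat.dvd_factorial (Nat.succ_pos _) (by omega)
  have h3 : (i + 1) * N.factorial ∣ c + 1 :=
    (Nat.mul_dvd_mul h2 dvd_rfl).trans (by rwa [← sq])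
  obtain ⟨k, hk⟩ := h3
  have hk0 : 0 < N.factorial * k := by
    rcases Nat.eq_zero_or_pos (N.factorial * k) with h | h
    · rw [mul_assoc, h] at hk; simp at hk
    · exact h
  obtain ⟨q, hq⟩ : ∃ q, N.factorial * k = q + 1 := ⟨N.factorial * k - 1, by omega⟩
  have hc1 : c = (i + 1) * q + i := by
    have : c + 1 = (i + 1) * (q + 1) := by rw [hk, mul_assoc, hq]
    have h5 : (i + 1) * (q + 1) = (i + 1) * q + i + 1 := by ring
    omega
  have hm : mm c i = q := by
    unfold mm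
    rw [hc1, Nat.add_sub_cancel, Nat.mul_div_cancel_left _ (Nat.succ_pos _)]
  refine ⟨?_, ?_, ?_⟩
  · rw [hm, hc1, Nat.add_sub_cancel, mul_comm]
  · rw [hc1]; exact Nat.le_add_left _ _
  · rw [hm, ← hq]; exact Dvd.intro _ rfl

theorem mm_two_le {N c n i : ℕ} (hN : n ≤ N) (h3 : 3 ≤ N) (hc : (N.factorial) ^ 2 ∣ c + 1)
    (hi : i < n) : 2 ≤ mm c i := by
  have h := (mm_mul hN hc hi).2.2
  have h1 := Nat.le_of_dvd (Nat.succ_pos _) h
  have h2 : (3 : ℕ).factorial ≤ N.factorial := Nat.factorial_le h3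
  have h4 : (3 : ℕ).factorial = 6 := rfl
  omega

theorem mm_prime_gt {N c n i q : ℕ} (hN : n ≤ N) (hc : (N.factorial) ^ 2 ∣ c + 1)
    (hi : i < n) (hq : q.Prime) (hd : q ∣ mm c i) : N < q := by
  by_contra hle
  push Not at hle
  have h := (mm_mul hN hc hi).2.2
  have h1 : q ∣ mm c i + 1 := (hq.dvd_factorial.2 hle).trans h
  have h2 : q ∣ 1 := (Nat.dvd_add_right hd).1 h1
  exact hq.one_lt.ne' (Nat.dvd_one.1 h2)

theorem mm_coprime {N c n i j : ℕ} (hN : n ≤ N) (hc : (N.factorial) ^ 2 ∣ c + 1)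
    (hi : i < n) (hj : j < n) (hij : i ≠ j) : Nat.Coprime (mm c i) (mm c j) := by
  rw [Nat.coprime_iff_gcd_eq_one]
  by_contra hne
  obtain ⟨q, hq, hd⟩ := Nat.exists_prime_and_dvd hne
  have hdi := hd.trans (Nat.gcd_dvd_left _ _)
  have hdj := hd.trans (Nat.gcd_dvd_right _ _)
  have hlt := mm_prime_gt hN hc hi hq hdi
  obtain ⟨e1, l1, -⟩ := mm_mul hN hc hi
  obtain ⟨e2, l2, -⟩ := mm_mul hN hc hj
  have f1 : i ≡ c [MOD q] := (Nat.modEq_iff_dvd' l1).2 (e1 ▸ Dvd.dvd.mul_right hdi _)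
  have f2 : j ≡ c [MOD q] := (Nat.modEq_iff_dvd' l2).2 (e2 ▸ Dvd.dvd.mul_right hdj _)
  exact hij (Nat.ModEq.eq_of_lt_of_lt (f1.trans f2.symm) (by omega) (by omega))

theorem mm_prod {N c n : ℕ} (hN : n ≤ N) (hc : (N.factorial) ^ 2 ∣ c + 1) :
    ∏ i ∈ Finset.range n, mm c i = c.choose n := by
  induction n with
  | zero => simp
  | succ n ih =>
    rw [Finset.prod_range_succ, ih (by omega)]
    obtain ⟨e1, l1, -⟩ := mm_mul hN hc (Nat.lt_succ_self n)
    have h2 : c.choose (n + 1) * (n + 1) = c.choose n * (c - n) := Nat.choose_succ_right_eq c n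
    rw [← e1] at h2
    have h4 : (c.choose n * mm c n) * (n + 1) = c.choose (n + 1) * (n + 1) := by
      rw [h2]; ring
    exact Nat.eq_of_mul_eq_mul_right (Nat.succ_pos n) h4

/-- From divisibility of the falling factorial by a prime to a small residue. -/
theorem residue_of_dvd {q a B : ℕ} (hq : q.Prime) (h : q ∣ a.descFactorial (B + 1)) :
    ∃ y ≤ B, (y : ℤ) ≡ a [ZMOD q] := by
  induction B with
  | zero =>
    refine ⟨0, le_rfl, ?_⟩
    simp only [Nat.descFactorial_one, zero_add] at h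
    exact Int.natCast_modEq_iff.2 ((Nat.modEq_zero_iff_dvd).2 h).symm
  | succ N ih =>
    rw [Nat.descFactorial_succ] at h
    rcases hq.dvd_mul.1 h with h | h
    · by_cases hY : N + 1 ≤ a
      · exact ⟨N + 1, le_rfl, Int.natCast_modEq_iff.2 ((Nat.modEq_iff_dvd' hY).2 h)⟩
      · exact ⟨a, by omega, Int.ModEq.refl _⟩
    · obtain ⟨j, hj, hj'⟩ := ih h
      exact ⟨j, by omega, hj'⟩

/-- From a small residue to divisibility of the falling factorial. -/
theorem dvd_of_residue {m a B y : ℕ} (hy : y ≤ B) (h : (y : ℤ) ≡ a [ZMOD m]) :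
    m ∣ a.descFactorial (B + 1) := by
  have h' : y ≡ a [MOD m] := Int.natCast_modEq_iff.1 h
  induction B with
  | zero =>
    obtain rfl : y = 0 := by omega
    simpa using (Nat.modEq_zero_iff_dvd).1 h'.symm
  | succ N ih =>
    rw [Nat.descFactorial_succ]
    rcases Nat.lt_or_ge N y with hlt | hge
    · obtain rfl : y = N + 1 := by omega
      by_cases hY : N + 1 ≤ a
      · exact Dvd.dvd.mul_right ((Nat.modEq_iff_dvd' hY).1 h') _
      · have : a - (N + 1) = 0 := by omega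
        rw [this, zero_mul]
        exact dvd_zero _
    · exact Dvd.dvd.mul_left (ih hge) _

end DP54
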