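import Pool.Agent.DP54.Basic
import Mathlib.Data.Int.ModEq
import Mathlib

/-!
# DP54.Dummies: finitely many dummies, congruence and majorants for `Poly`.
-/

namespace DP54

open Dioph Vector3 Fin2

theorem poly_map_sub {α β : Type} (f : α → β) (p q : Poly α) :
    (p - q).map f = p.map f - q.map f := by
  ext v; rfl

theorem poly_map_mul {α β : Type} (f : α → β) (p q : Poly α) :
    (p * q).map f = p.map f * q.map f := by
  ext v; rfl

/-- Every polynomial only uses finitely many of its `β`-variables. -/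
theorem poly_finite_support {α β : Type} (p : Poly (α ⊕ β)) :
    ∃ (s : Finset β) (q : Poly (α ⊕ s)), p = q.map (Sum.map id Subtype.val) := by
  classical
  have mono : ∀ {s t : Finset β} (hst : s ⊆ t) (q : Poly (α ⊕ s)),
      q.map (Sum.map id Subtype.val) =
        (q.map (Sum.map id (fun x : s => (⟨x.1, hst x.2⟩ : t)))).map
          (Sum.map id Subtype.val) := by
    intro s t hst q
    ext v
    simp only [Poly.map_apply]
    congr 1
    funext x
    rcases x with a | b <;> rfl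
  refine Poly.induction (C := fun p : Poly (α ⊕ β) =>
    ∃ (s : Finset β) (q : Poly (α ⊕ s)), p = q.map (Sum.map id Subtype.val)) ?_ ?_ ?_ ?_ p
  · rintro (a | b)
    · exact ⟨∅, Poly.proj (Sum.inl a), by ext v; rfl⟩
    · exact ⟨{b}, Poly.proj (Sum.inr ⟨b, by simp⟩), by ext v; rfl⟩
  · intro n
    exact ⟨∅, Poly.const n, by ext v; rfl⟩
  · rintro f g ⟨s, q, rfl⟩ ⟨t, r, rfl⟩
    refine ⟨s ∪ t, q.map (Sum.map id (fun x : s => (⟨x.1, Finset.mem_union_left _ x.2⟩ : ↥(s ∪ t))))
      - r.map (Sum.map id (fun x : t => (⟨x.1, Finset.mem_union_right _ x.2⟩ : ↥(s ∪ t)))), ?_⟩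
    rw [poly_map_sub, ← mono Finset.subset_union_left, ← mono Finset.subset_union_right]
  · rintro f g ⟨s, q, rfl⟩ ⟨t, r, rfl⟩
    refine ⟨s ∪ t, q.map (Sum.map id (fun x : s => (⟨x.1, Finset.mem_union_left _ x.2⟩ : ↥(s ∪ t))))
      * r.map (Sum.map id (fun x : t => (⟨x.1, Finset.mem_union_right _ x.2⟩ : ↥(s ∪ t)))), ?_⟩
    rw [poly_map_mul, ← mono Finset.subset_union_left, ← mono Finset.subset_union_right]

/-- A Diophantine set has a representation with finitely many dummies. -/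
theorem finite_dummies {α : Type} {S : Set (α → ℕ)} (h : Dioph S) :
    ∃ (k : ℕ) (p : Poly (α ⊕ Fin k)), ∀ v, v ∈ S ↔ ∃ t : Fin k → ℕ, p (Sum.elim v t) = 0 := by
  classical
  obtain ⟨β, p, hp⟩ := h
  obtain ⟨s, q, rfl⟩ := poly_finite_support p
  let e : s ≃ Fin s.card := s.equivFin
  refine ⟨s.card, q.map (Sum.map id e), fun v => ?_⟩
  rw [hp v]
  constructor
  · rintro ⟨t, ht⟩
    refine ⟨fun j => t (e.symm j).1, ?_⟩
    rw [Poly.map_apply] at ht ⊢
    rw [← ht]
    congr 1
    funext x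
    rcases x with a | b
    · rfl
    · simp
  · rintro ⟨t, ht⟩
    refine ⟨fun b => if hb : b ∈ s then t (e ⟨b, hb⟩) else 0, ?_⟩
    rw [Poly.map_apply] at ht ⊢
    rw [← ht]
    congr 1
    funext x
    rcases x with a | b
    · rfl
    · simp

/-- Polynomials respect congruences. -/
theorem poly_modEq {γ : Type} (p : Poly γ) (m : ℤ) (v w : γ → ℕ)
    (h : ∀ i, (v i : ℤ) ≡ w i [ZMOD m]) : p v ≡ p w [ZMOD m] := by
  refine Poly.induction (C := fun p : Poly γ => p v ≡ p w [ZMOD m]) ?_ ?_ ?_ ?_ p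
  · intro i; simpa using h i
  · intro n; simp [Int.ModEq]
  · intro f g hf hg; simpa using hf.sub hg
  · intro f g hf hg; simpa using hf.mul hg

/-- Every polynomial has a monotone majorant. -/
theorem poly_major {γ : Type} (p : Poly γ) :
    ∃ q : Poly γ, ∀ v w : γ → ℕ, (∀ i, v i ≤ w i) → |p v| ≤ q w := by
  refine Poly.induction (C := fun p : Poly γ =>
    ∃ q : Poly γ, ∀ v w : γ → ℕ, (∀ i, v i ≤ w i) → |p v| ≤ q w) ?_ ?_ ?_ ?_ p
  · intro i
    refine ⟨Poly.proj i, fun v w h => ?_⟩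
    simp only [Poly.proj_apply]
    rw [abs_of_nonneg (by positivity)]
    exact_mod_cast h i
  · intro n
    exact ⟨Poly.const |n|, fun v w h => by simp⟩
  · rintro f g ⟨a, ha⟩ ⟨b, hb⟩
    refine ⟨a + b, fun v w h => ?_⟩
    simp only [Poly.sub_apply, Poly.add_apply]
    exact (abs_sub _ _).trans (add_le_add (ha v w h) (hb v w h))
  · rintro f g ⟨a, ha⟩ ⟨b, hb⟩
    refine ⟨a * b, fun v w h => ?_⟩
    simp only [Poly.mul_apply, abs_mul]
    exact mul_le_mul (ha v w h) (hb v w h) (abs_nonneg _)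
      ((abs_nonneg _).trans (ha v w h))

end DP54
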