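import Pool.Agent.DP54.Choose

/-!
# DP54.Fact: the factorial and the falling factorial are Diophantine functions.
-/

namespace DP54

open Dioph Vector3 Fin2

theorem pow_le_sub_pow_add (r m : ℕ) (h : m ≤ r) : ∀ n : ℕ,
    r ^ (n + 1) ≤ (r - m) ^ (n + 1) + (n + 1) * m * r ^ n := by
  intro n
  induction n with
  | zero => simp; omega
  | succ n ih =>
    have h1 : (r - m) ^ (n + 1) ≤ r ^ (n + 1) := Nat.pow_le_pow_left (Nat.sub_le _ _) _
    have h2 : r * (r - m) ^ (n + 1) = (r - m) ^ (n + 1 + 1) + m * (r - m) ^ (n + 1) := by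
      conv_lhs => rw [show r = (r - m) + m by omega]
      rw [Nat.add_sub_cancel]
      ring
    calc r ^ (n + 1 + 1) = r * r ^ (n + 1) := by ring
      _ ≤ r * ((r - m) ^ (n + 1) + (n + 1) * m * r ^ n) := Nat.mul_le_mul_left _ ih
      _ = (r - m) ^ (n + 1 + 1) + m * (r - m) ^ (n + 1) + (n + 1) * m * r ^ (n + 1) := by
          rw [mul_add, h2]; ring
      _ ≤ (r - m) ^ (n + 1 + 1) + m * r ^ (n + 1) + (n + 1) * m * r ^ (n + 1) := by
          gcongr
      _ = (r - m) ^ (n + 1 + 1) + (n + 1 + 1) * m * r ^ (n + 1) := by ring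

theorem factorial_eq_div (n r : ℕ) (hr : n * n * (n.factorial + 1) < r) :
    n.factorial = r ^ n / r.choose n := by
  rcases n with _ | n
  · simp
  have hn : n + 1 ≤ r := by nlinarith [Nat.factorial_pos (n + 1)]
  have hcp : 0 < r.choose (n + 1) := Nat.choose_pos hn
  symm
  refine Nat.div_eq_of_lt_le ?_ ?_
  · rw [← Nat.descFactorial_eq_factorial_mul_choose]
    exact Nat.descFactorial_le_pow _ _
  · have hd : r.descFactorial (n + 1) = (n + 1).factorial * r.choose (n + 1) :=
      Nat.descFactorial_eq_factorial_mul_choose _ _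
    have h1 : (r + 1 - (n + 1)) ^ (n + 1) ≤ r.descFactorial (n + 1) :=
      Nat.pow_sub_le_descFactorial _ _
    have h2 : r ^ (n + 1) ≤ (r - n) ^ (n + 1) + (n + 1) * n * r ^ n :=
      pow_le_sub_pow_add r n (by omega) n
    have h3 : r + 1 - (n + 1) = r - n := by omega
    rw [h3] at h1
    have h4 : (n + 1).factorial * r ^ (n + 1) <
        (n + 1).factorial * ((n + 1).factorial + 1) * r.choose (n + 1) := by
      have h5 : r ^ (n + 1) ≤ r.descFactorial (n + 1) + (n + 1) * n * r ^ n := by omega
      have h6 : ((n + 1).factorial + 1) * ((n + 1) * n * r ^ n) < r ^ (n + 1) := by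
        have hrp : 0 < r ^ n := Nat.pow_pos (by omega)
        calc ((n + 1).factorial + 1) * ((n + 1) * n * r ^ n) =
              ((n + 1) * n * ((n + 1).factorial + 1)) * r ^ n := by
              ring
          _ ≤ ((n + 1) * (n + 1) * ((n + 1).factorial + 1)) * r ^ n := by gcongr; omega
          _ < r * r ^ n := Nat.mul_lt_mul_of_pos_right hr hrp
          _ = r ^ (n + 1) := by ring
      have h7 : ((n + 1).factorial + 1) * r ^ (n + 1) ≤
          ((n + 1).factorial + 1) * r.descFactorial (n + 1) +
            ((n + 1).factorial + 1) * ((n + 1) * n * r ^ n) := by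
        rw [← mul_add]
        exact Nat.mul_le_mul_left _ h5
      have h8 : (n + 1).factorial * ((n + 1).factorial + 1) * r.choose (n + 1) =
          ((n + 1).factorial + 1) * r.descFactorial (n + 1) := by rw [hd]; ring
      rw [h8]
      have h9 : ((n + 1).factorial + 1) * r ^ (n + 1) =
          (n + 1).factorial * r ^ (n + 1) + r ^ (n + 1) := by ring
      omega
    have h5 : (n + 1).factorial * r ^ (n + 1) <
        (n + 1).factorial * (((n + 1).factorial + 1) * r.choose (n + 1)) := by
      rw [← mul_assoc]; exact h4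
    exact Nat.lt_of_mul_lt_mul_left h5

/-- `n! = ⌊r ^ n / C(r,n)⌋` for large `r`. -/
theorem factorial_eq (n r : ℕ) (hr : (2 * (n + 1)) ^ (n + 2) ≤ r) :
    n.factorial = r ^ n / r.choose n := by
  refine factorial_eq_div n r (lt_of_lt_of_le ?_ hr)
  have h1 : n.factorial ≤ (n + 1) ^ n :=
    (Nat.factorial_le_pow n).trans (Nat.pow_le_pow_left (Nat.le_succ n) n)
  have h2 : 1 ≤ (n + 1) ^ n := Nat.one_le_pow _ _ (Nat.succ_pos _)
  calc n * n * (n.factorial + 1) ≤ n * n * ((n + 1) ^ n + (n + 1) ^ n) := by gcongr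
    _ = 2 * (n * n * (n + 1) ^ n) := by ring
    _ < 2 * ((n + 1) * (n + 1) * (n + 1) ^ n) := by
        have : n * n * (n + 1) ^ n < (n + 1) * (n + 1) * (n + 1) ^ n :=
          Nat.mul_lt_mul_of_pos_right (by nlinarith) (by omega)
        omega
    _ = 2 * (n + 1) ^ (n + 2) := by ring
    _ ≤ 2 ^ (n + 2) * (n + 1) ^ (n + 2) := by
        gcongr
        exact Nat.le_self_pow (by omega) _
    _ = (2 * (n + 1)) ^ (n + 2) := by rw [mul_pow]

/-- The factorial is Diophantine. -/
theorem factorial_dioph {α : Type} {f : (α → ℕ) → ℕ} (df : DiophFn f) :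
    DiophFn fun v => (f v).factorial := by
  have hr : DiophFn fun v : α → ℕ => f v * f v * (f v ^ f v + 1) + 1 :=
    add_dioph (mul_dioph (mul_dioph df df) (add_dioph (pow_dioph df df) (const_dioph 1)))
      (const_dioph 1)
  have h : (fun v => (f v).factorial) = fun v : α → ℕ => (f v * f v * (f v ^ f v + 1) + 1) ^ f v /
      (f v * f v * (f v ^ f v + 1) + 1).choose (f v) := by
    funext v
    refine factorial_eq_div _ _ ?_
    have : (f v).factorial ≤ f v ^ f v := Nat.factorial_le_pow _
    calc f v * f v * ((f v).factorial + 1) ≤ f v * f v * (f v ^ f v + 1) := by gcongr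
      _ < _ := Nat.lt_succ_self _
  rw [h]
  exact div_dioph (pow_dioph hr df) (choose_dioph hr df)

/-- The falling factorial is Diophantine (`Nat.descFactorial_eq_factorial_mul_choose`). -/
theorem descFactorial_dioph {α : Type} {f g : (α → ℕ) → ℕ} (df : DiophFn f) (dg : DiophFn g) :
    DiophFn fun v => (f v).descFactorial (g v) := by
  have : (fun v => (f v).descFactorial (g v)) =
      fun v : α → ℕ => (g v).factorial * (f v).choose (g v) := by
    funext v
    exact Nat.descFactorial_eq_factorial_mul_choose _ _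
  rw [this]
  exact mul_dioph (factorial_dioph dg) (choose_dioph df dg)

end DP54
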