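import Pool.Agent.DP54.Core
import Pool.Agent.DP54.Dummies
import Pool.Agent.DP54.Fact

/-!
# DP54.BForall: Diophantine sets are closed under bounded universal quantification.
-/

namespace DP54

open Dioph Vector3 Fin2

/-- The core equivalence for a polynomial. -/
theorem ball_key {α : Type} {k : ℕ} (p q : Poly (Option α ⊕ Fin k))
    (hq : ∀ v w : (Option α ⊕ Fin k) → ℕ, (∀ i, v i ≤ w i) → |p v| ≤ q w)
    (v : α → ℕ) (n : ℕ) :
    (∀ i < n, ∃ t : Fin k → ℕ, p (Sum.elim (Option.elim' i v) t) = 0) ↔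
      ∃ B N c : ℕ, ∃ a : Fin k → ℕ, n ≤ N ∧ B + 3 ≤ N ∧
        (q (Sum.elim (Option.elim' n v) fun _ => B)).natAbs ≤ N ∧ (N.factorial) ^ 2 ∣ c + 1 ∧
        c.choose n ∣ (p (Sum.elim (Option.elim' c v) a)).natAbs ∧
        ∀ j, c.choose n ∣ (a j).descFactorial (B + 1) := by
  have hcong : ∀ (m : ℤ) (i i' : ℕ) (y y' : Fin k → ℕ), (i : ℤ) ≡ i' [ZMOD m] →
      (∀ j, (y j : ℤ) ≡ y' j [ZMOD m]) →
      p (Sum.elim (Option.elim' i v) y) ≡ p (Sum.elim (Option.elim' i' v) y') [ZMOD m] := by
    intro m i i' y y' hi hy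
    refine poly_modEq p m _ _ ?_
    rintro ((_ | x) | x)
    · exact hi
    · exact Int.ModEq.refl _
    · exact hy _
  have hQ : ∀ (n B i : ℕ) (y : Fin k → ℕ), i ≤ n → (∀ j, y j ≤ B) →
      |p (Sum.elim (Option.elim' i v) y)| ≤
        ((q (Sum.elim (Option.elim' n v) fun _ => B)).natAbs : ℕ) := by
    intro n B i y hi hy
    refine (hq _ (Sum.elim (Option.elim' n v) fun _ => B) ?_).trans ?_
    · rintro ((_ | x) | x)
      · exact hi
      · exact le_rfl
      · exact hy _
    · rw [Int.natCast_natAbs]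
      exact le_abs_self _
  constructor
  · intro h
    obtain ⟨B, N, c, a, h1, h2, h3, h4, h5, h6⟩ := core_mp
      (fun i y => p (Sum.elim (Option.elim' i v) y))
      (fun n B => (q (Sum.elim (Option.elim' n v) fun _ => B)).natAbs) hcong h
    exact ⟨B, N, c, a, h1, h2, h3, h4, Int.natCast_dvd.1 h5, h6⟩
  · rintro ⟨B, N, c, a, h1, h2, h3, h4, h5, h6⟩
    exact core_mpr (fun i y => p (Sum.elim (Option.elim' i v) y))
      (fun n B => (q (Sum.elim (Option.elim' n v) fun _ => B)).natAbs) hcong hQ h1 h2 h3 h4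
      (Int.natCast_dvd.2 h5) h6

/-- Closure under the bounded universal quantifier. -/
theorem ball {α : Type} {P : (α → ℕ) → ℕ → Prop} {f : (α → ℕ) → ℕ} (df : DiophFn f)
    (h : Dioph {w : Option α → ℕ | P (w ∘ some) (w none)}) :
    Dioph {v : α → ℕ | ∀ i < f v, P v i} := by
  obtain ⟨k, p, hp⟩ := finite_dummies h
  obtain ⟨q, hq⟩ := poly_major p
  have hPi : ∀ v i, P v i ↔ ∃ t : Fin k → ℕ, p (Sum.elim (Option.elim' i v) t) = 0 :=
    fun v i => hp (Option.elim' i v)
  have key : ∀ v, (∀ i < f v, P v i) ↔ ∃ n, f v = n ∧ 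
      ∃ B N c : ℕ, ∃ a : Fin k → ℕ, n ≤ N ∧ B + 3 ≤ N ∧
        (q (Sum.elim (Option.elim' n v) fun _ => B)).natAbs ≤ N ∧ (N.factorial) ^ 2 ∣ c + 1 ∧
        c.choose n ∣ (p (Sum.elim (Option.elim' c v) a)).natAbs ∧
        ∀ j, c.choose n ∣ (a j).descFactorial (B + 1) := by
    intro v
    simp only [exists_eq_left', hPi]
    exact ball_key p q hq v (f v)
  refine Dioph.ext (S := {v : α → ℕ | ∃ n, f v = n ∧ 
      ∃ B N c : ℕ, ∃ a : Fin k → ℕ, n ≤ N ∧ B + 3 ≤ N ∧
        (q (Sum.elim (Option.elim' n v) fun _ => B)).natAbs ≤ N ∧ (N.factorial) ^ 2 ∣ c + 1 ∧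
        c.choose n ∣ (p (Sum.elim (Option.elim' c v) a)).natAbs ∧
        ∀ j, c.choose n ∣ (a j).descFactorial (B + 1)}) ?_ (fun v => (key v).symm)
  refine ex (P := fun v n => f v = n ∧ 
      ∃ B N c : ℕ, ∃ a : Fin k → ℕ, n ≤ N ∧ B + 3 ≤ N ∧
        (q (Sum.elim (Option.elim' n v) fun _ => B)).natAbs ≤ N ∧ (N.factorial) ^ 2 ∣ c + 1 ∧
        c.choose n ∣ (p (Sum.elim (Option.elim' c v) a)).natAbs ∧
        ∀ j, c.choose n ∣ (a j).descFactorial (B + 1)) ?_
  refine Dioph.inter (eq_dioph (lift df) new) ?_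
  refine ex (P := fun (v : Option α → ℕ) B => 
      ∃ N c : ℕ, ∃ a : Fin k → ℕ, v none ≤ N ∧ B + 3 ≤ N ∧
        (q (Sum.elim (Option.elim' (v none) (v ∘ some)) fun _ => B)).natAbs ≤ N ∧
        (N.factorial) ^ 2 ∣ c + 1 ∧
        c.choose (v none) ∣ (p (Sum.elim (Option.elim' c (v ∘ some)) a)).natAbs ∧
        ∀ j, c.choose (v none) ∣ (a j).descFactorial (B + 1)) ?_
  refine ex (P := fun (v : Option (Option α) → ℕ) N => 
      ∃ c : ℕ, ∃ a : Fin k → ℕ, v (some none) ≤ N ∧ v none + 3 ≤ N ∧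
        (q (Sum.elim (Option.elim' (v (some none)) (v ∘ some ∘ some)) fun _ => v none)).natAbs
          ≤ N ∧ (N.factorial) ^ 2 ∣ c + 1 ∧
        c.choose (v (some none)) ∣ (p (Sum.elim (Option.elim' c (v ∘ some ∘ some)) a)).natAbs ∧
        ∀ j, c.choose (v (some none)) ∣ (a j).descFactorial (v none + 1)) ?_
  refine ex (P := fun (v : Option (Option (Option α)) → ℕ) c => 
      ∃ a : Fin k → ℕ, v (some (some none)) ≤ v none ∧ v (some none) + 3 ≤ v none ∧
        (q (Sum.elim (Option.elim' (v (some (some none))) (v ∘ some ∘ some ∘ some))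
          fun _ => v (some none))).natAbs
          ≤ v none ∧ ((v none).factorial) ^ 2 ∣ c + 1 ∧
        c.choose (v (some (some none))) ∣
          (p (Sum.elim (Option.elim' c (v ∘ some ∘ some ∘ some)) a)).natAbs ∧
        ∀ j, c.choose (v (some (some none))) ∣ (a j).descFactorial (v (some none) + 1)) ?_
  refine exVec (P := fun (v : Option (Option (Option (Option α))) → ℕ) (a : Fin k → ℕ) => 
      v (some (some (some none))) ≤ v (some none) ∧ v (some (some none)) + 3 ≤ v (some none) ∧
        (q (Sum.elim (Option.elim' (v (some (some (some none)))) (v ∘ some ∘ some ∘ some ∘ some))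
          fun _ => v (some (some none)))).natAbs
          ≤ v (some none) ∧ ((v (some none)).factorial) ^ 2 ∣ v none + 1 ∧
        (v none).choose (v (some (some (some none)))) ∣
          (p (Sum.elim (Option.elim' (v none) (v ∘ some ∘ some ∘ some ∘ some)) a)).natAbs ∧
        ∀ j, (v none).choose (v (some (some (some none)))) ∣
          (a j).descFactorial (v (some (some none)) + 1)) ?_
  have dn : DiophFn fun w : Option (Option (Option (Option α))) ⊕ Fin k → ℕ =>
    w (Sum.inl (some (some (some none)))) := proj_dioph _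
  have dB : DiophFn fun w : Option (Option (Option (Option α))) ⊕ Fin k → ℕ =>
    w (Sum.inl (some (some none))) := proj_dioph _
  have dN : DiophFn fun w : Option (Option (Option (Option α))) ⊕ Fin k → ℕ =>
    w (Sum.inl (some none)) := proj_dioph _
  have dc : DiophFn fun w : Option (Option (Option (Option α))) ⊕ Fin k → ℕ =>
    w (Sum.inl none) := proj_dioph _
  have da : ∀ j, DiophFn fun w : Option (Option (Option (Option α))) ⊕ Fin k → ℕ =>
    w (Sum.inr j) := fun j => proj_dioph _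
  have dq : DiophFn fun w : Option (Option (Option (Option α))) ⊕ Fin k → ℕ =>
      (q (Sum.elim (Option.elim' (w (Sum.inl (some (some (some none)))))
        ((w ∘ Sum.inl) ∘ some ∘ some ∘ some ∘ some))
        fun _ => w (Sum.inl (some (some none))))).natAbs := by
    have := abs_poly_dioph (q.map (Sum.elim (Option.elim'
      (Sum.inl (some (some (some none))) : Option (Option (Option (Option α))) ⊕ Fin k)
      (Sum.inl ∘ some ∘ some ∘ some ∘ some)) (fun _ => Sum.inl (some (some none)))))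
    convert! this using 4 with w
    rw [Poly.map_apply]
    congr 1
    funext x
    rcases x with (_ | x) | x <;> rfl
  have dp : DiophFn fun w : Option (Option (Option (Option α))) ⊕ Fin k → ℕ =>
      (p (Sum.elim (Option.elim' (w (Sum.inl none))
        ((w ∘ Sum.inl) ∘ some ∘ some ∘ some ∘ some)) (w ∘ Sum.inr))).natAbs := by
    have := abs_poly_dioph (p.map (Sum.elim (Option.elim'
      (Sum.inl none : Option (Option (Option (Option α))) ⊕ Fin k)
      (Sum.inl ∘ some ∘ some ∘ some ∘ some)) Sum.inr))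
    convert! this using 4 with w
    rw [Poly.map_apply]
    congr 1
    funext x
    rcases x with (_ | x) | x <;> rfl
  refine Dioph.inter (le_dioph dn dN) ?_
  refine Dioph.inter (le_dioph (add_dioph dB (const_dioph 3)) dN) ?_
  refine Dioph.inter (le_dioph dq dN) ?_
  refine Dioph.inter (dvd_dioph (pow_dioph (factorial_dioph dN) (const_dioph 2))
    (add_dioph dc (const_dioph 1))) ?_
  refine Dioph.inter (dvd_dioph (choose_dioph dc dn) dp) ?_
  exact ballFin fun j => dvd_dioph (choose_dioph dc dn)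
    (descFactorial_dioph (da j) (add_dioph dB (const_dioph 1)))

end DP54
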