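import Mathlib.NumberTheory.Dioph

/-!
# DP54.Basic: conveniences over Mathlib's `Dioph`, for an arbitrary index type `α : Type`.
-/

namespace DP54

open Dioph Vector3 Fin2

/-- Existential quantifier over one natural number. -/
theorem ex {α : Type} {P : (α → ℕ) → ℕ → Prop}
    (h : Dioph {w : Option α → ℕ | P (w ∘ some) (w none)}) :
    Dioph {v : α → ℕ | ∃ x, P v x} :=
  Dioph.ext (ex1_dioph h) fun _ => Iff.rfl

/-- Existential quantifier over a vector of natural numbers. -/
theorem exVec {α β : Type} {P : (α → ℕ) → (β → ℕ) → Prop}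
    (h : Dioph {w : α ⊕ β → ℕ | P (w ∘ Sum.inl) (w ∘ Sum.inr)}) :
    Dioph {v : α → ℕ | ∃ x, P v x} :=
  Dioph.ext (ex_dioph h) fun _ => Iff.rfl

/-- Reindexing a Diophantine function. -/
theorem re {α β : Type} {f : (α → ℕ) → ℕ} (g : α → β) (h : DiophFn f) :
    DiophFn fun w : β → ℕ => f (w ∘ g) := reindex_diophFn g h

/-- Weakening by one variable. -/
theorem lift {α : Type} {f : (α → ℕ) → ℕ} (h : DiophFn f) :
    DiophFn fun w : Option α → ℕ => f (w ∘ some) := reindex_diophFn some h

/-- The new variable. -/
theorem new {α : Type} : DiophFn fun w : Option α → ℕ => w none := proj_dioph none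

/-- Finite intersections. -/
theorem ballFin {α β : Type} [Finite β] {P : (α → ℕ) → β → Prop}
    (h : ∀ j, Dioph {v : α → ℕ | P v j}) : Dioph {v : α → ℕ | ∀ j, P v j} := by
  classical
  have := Fintype.ofFinite β
  suffices H : ∀ s : Finset β, Dioph {v : α → ℕ | ∀ j ∈ s, P v j} by
    exact Dioph.ext (H Finset.univ) fun v => by simp
  intro s
  induction s using Finset.induction_on with
  | empty =>
    refine Dioph.ext (of_no_dummies Set.univ (0 : Poly α) (by simp)) fun v => by simp
  | insert a s _ ih =>
    refine Dioph.ext ((h a).inter ih) fun v => ?_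
    simp

end DP54
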