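import Mathlib
import Pool.Agent.DP54.Basic

/-!
# DP54.Choose: the binomial coefficient is a Diophantine function.
With `u = 2 ^ n + 1`, `C(n,k)` is the `k`-th base-`u` digit of `(u + 1) ^ n`.
-/

namespace DP54

open Dioph Vector3 Fin2

theorem digit_sum (u : ℕ) : ∀ (k K : ℕ) (a : ℕ → ℕ), (∀ j, a j < u) →
    (∑ j ∈ Finset.range K, a j * u ^ j) / u ^ k % u = if k < K then a k else 0 := by
  intro k
  induction k with
  | zero =>
    intro K a ha
    have hu : 0 < u := lt_of_le_of_lt (Nat.zero_le _) (ha 0)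
    rcases K with _ | K
    · simp
    · rw [Finset.sum_range_succ']
      simp only [pow_zero, mul_one, Nat.div_one, Nat.zero_lt_succ, if_true]
      have : ∑ k ∈ Finset.range K, a (k + 1) * u ^ (k + 1) =
          u * ∑ k ∈ Finset.range K, a (k + 1) * u ^ k := by
        rw [Finset.mul_sum]
        refine Finset.sum_congr rfl fun x _ => ?_
        ring
      rw [this, Nat.mul_add_mod]
      exact Nat.mod_eq_of_lt (ha 0)
  | succ k ih =>
    intro K a ha
    have hu : 0 < u := lt_of_le_of_lt (Nat.zero_le _) (ha 0)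
    rcases K with _ | K
    · simp
    · rw [Finset.sum_range_succ']
      have : ∑ k ∈ Finset.range K, a (k + 1) * u ^ (k + 1) =
          u * ∑ k ∈ Finset.range K, a (k + 1) * u ^ k := by
        rw [Finset.mul_sum]
        refine Finset.sum_congr rfl fun x _ => ?_
        ring
      rw [this, pow_succ', ← Nat.div_div_eq_div_mul, pow_zero, mul_one, Nat.mul_add_div hu,
        Nat.div_eq_of_lt (ha 0), Nat.add_zero, ih K (fun j => a (j + 1)) (fun j => ha _)]
      simp

/-- `C(n,k)` as a base-`u` digit of `(u+1)^n`. -/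
theorem choose_eq (n k u : ℕ) (hu : 2 ^ n < u) : n.choose k = ((u + 1) ^ n / u ^ k) % u := by
  have h := digit_sum u k (n + 1) (fun j => n.choose j)
    (fun j => lt_of_le_of_lt (Nat.choose_le_two_pow n j) hu)
  have hs : (∑ j ∈ Finset.range (n + 1), n.choose j * u ^ j) = (u + 1) ^ n := by
    rw [add_pow]
    refine Finset.sum_congr rfl fun x _ => ?_
    simp [mul_comm]
  rw [hs] at h
  rw [h]
  split_ifs with hk
  · rfl
  · exact Nat.choose_eq_zero_of_lt (by omega)

/-- The binomial coefficient is Diophantine. -/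
theorem choose_dioph {α : Type} {f g : (α → ℕ) → ℕ} (df : DiophFn f) (dg : DiophFn g) :
    DiophFn fun v => (f v).choose (g v) := by
  have h2 : DiophFn fun v : α → ℕ => 2 ^ f v + 1 :=
    add_dioph (pow_dioph (const_dioph 2) df) (const_dioph 1)
  have h3 : DiophFn fun v : α → ℕ =>
      ((2 ^ f v + 1 + 1) ^ f v / (2 ^ f v + 1) ^ g v) % (2 ^ f v + 1) :=
    mod_dioph (div_dioph (pow_dioph (add_dioph h2 (const_dioph 1)) df) (pow_dioph h2 dg)) h2
  have : (fun v => (f v).choose (g v)) = fun v : α → ℕ =>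
      ((2 ^ f v + 1 + 1) ^ f v / (2 ^ f v + 1) ^ g v) % (2 ^ f v + 1) := by
    funext v
    exact choose_eq _ _ _ (Nat.lt_succ_self _)
  rw [this]
  exact h3

end DP54
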