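import Pool.Agent.DP54.Arith

/-!
# DP54.Core: elimination of the bounded universal quantifier (pure number theory).
-/

namespace DP54

theorem mm_dvd_choose {N c n i : ℕ} (hN : n ≤ N) (hc : (N.factorial) ^ 2 ∣ c + 1) (hi : i < n) :
    mm c i ∣ c.choose n := by
  rw [← mm_prod hN hc]
  exact Finset.dvd_prod_of_mem _ (Finset.mem_range.2 hi)

theorem modEq_mm {N c n i : ℕ} (hN : n ≤ N) (hc : (N.factorial) ^ 2 ∣ c + 1) (hi : i < n) :
    (c : ℤ) ≡ i [ZMOD (mm c i : ℕ)] := by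
  obtain ⟨h1, h2, _⟩ := mm_mul hN hc hi
  refine (Int.modEq_iff_dvd.2 ⟨(i + 1 : ℕ), ?_⟩).symm
  have h3 : ((mm c i * (i + 1) : ℕ) : ℤ) = ((c - i : ℕ) : ℤ) := by rw [h1]
  rw [Nat.cast_sub h2] at h3
  rw [← h3]
  push_cast
  ring

/-- `⇐`: take a prime factor `q > N` of `mm c i`; by `residue_of_dvd` there are `y j ≤ B` with
`y j ≡ a j` mod `q`; `P i y ≡ P c a ≡ 0` mod `q` and `|P i y| ≤ Q n B ≤ N < q`. -/
theorem core_mpr {β : Type} (P : ℕ → (β → ℕ) → ℤ) (Q : ℕ → ℕ → ℕ)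
    (hcong : ∀ (m : ℤ) (i i' : ℕ) (y y' : β → ℕ), (i : ℤ) ≡ i' [ZMOD m] →
      (∀ j, (y j : ℤ) ≡ y' j [ZMOD m]) → P i y ≡ P i' y' [ZMOD m])
    (hQ : ∀ (n B i : ℕ) (y : β → ℕ), i ≤ n → (∀ j, y j ≤ B) → |P i y| ≤ Q n B)
    {n B N c : ℕ} {a : β → ℕ} (hn : n ≤ N) (hB : B + 3 ≤ N) (hQN : Q n B ≤ N)
    (hc : (N.factorial) ^ 2 ∣ c + 1) (hP : ((c.choose n : ℕ) : ℤ) ∣ P c a)
    (ha : ∀ j, c.choose n ∣ (a j).descFactorial (B + 1)) :
    ∀ i < n, ∃ y : β → ℕ, P i y = 0 := by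
  intro i hi
  have h2 : 2 ≤ mm c i := mm_two_le hn (by omega) hc hi
  obtain ⟨q, hq, hqd⟩ := Nat.exists_prime_and_dvd (n := mm c i) (by omega)
  have hqN : N < q := mm_prime_gt hn hc hi hq hqd
  have hqc : q ∣ c.choose n := hqd.trans (mm_dvd_choose hn hc hi)
  choose y hyB hya using fun j => residue_of_dvd (B := B) hq (hqc.trans (ha j))
  refine ⟨y, ?_⟩
  have hic : (i : ℤ) ≡ c [ZMOD (q : ℕ)] :=
    ((modEq_mm hn hc hi).of_dvd (Int.natCast_dvd_natCast.2 hqd)).symm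
  have h3 : P i y ≡ P c a [ZMOD (q : ℕ)] := hcong _ _ _ _ _ hic hya
  have h4 : (q : ℤ) ∣ P c a := (Int.natCast_dvd_natCast.2 hqc).trans hP
  have h5 : (q : ℤ) ∣ P i y := by
    have h6 : P i y ≡ 0 [ZMOD (q : ℕ)] := h3.trans (Int.modEq_zero_iff_dvd.2 h4)
    exact Int.modEq_zero_iff_dvd.1 h6
  have h7 : |P i y| ≤ Q n B := hQ n B i y hi.le hyB
  refine Int.eq_zero_of_abs_lt_dvd h5 ?_
  have h8 : ((Q n B : ℕ) : ℤ) ≤ N := by exact_mod_cast hQN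
  have h9 : (N : ℤ) < q := by exact_mod_cast hqN
  omega

/-- `⇒`: `B` = maximum of the witnesses, `N = max n (B+3) (Q n B)`, `c = (N!)^2 - 1`, and `a j` by
the Chinese remainder theorem. -/
theorem core_mp {β : Type} [Finite β] (P : ℕ → (β → ℕ) → ℤ) (Q : ℕ → ℕ → ℕ)
    (hcong : ∀ (m : ℤ) (i i' : ℕ) (y y' : β → ℕ), (i : ℤ) ≡ i' [ZMOD m] →
      (∀ j, (y j : ℤ) ≡ y' j [ZMOD m]) → P i y ≡ P i' y' [ZMOD m])
    {n : ℕ} (h : ∀ i < n, ∃ y : β → ℕ, P i y = 0) :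
    ∃ B N c : ℕ, ∃ a : β → ℕ, n ≤ N ∧ B + 3 ≤ N ∧ Q n B ≤ N ∧ (N.factorial) ^ 2 ∣ c + 1 ∧
      ((c.choose n : ℕ) : ℤ) ∣ P c a ∧ ∀ j, c.choose n ∣ (a j).descFactorial (B + 1) := by
  classical
  obtain ⟨_⟩ := nonempty_fintype β
  choose! Y hY using h
  obtain ⟨B, hB⟩ : ∃ B, ∀ i < n, ∀ j, Y i j ≤ B := by
    refine ⟨(Finset.range n).sup fun i => Finset.univ.sup (Y i), fun i hi j => ?_⟩
    exact (Finset.le_sup (f := Y i) (Finset.mem_univ j)).trans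
      (Finset.le_sup (f := fun i => Finset.univ.sup (Y i)) (Finset.mem_range.2 hi))
  obtain ⟨N, hnN, hBN, hQN⟩ : ∃ N, n ≤ N ∧ B + 3 ≤ N ∧ Q n B ≤ N :=
    ⟨max n (max (B + 3) (Q n B)), le_max_left _ _,
      (le_max_left _ _).trans (le_max_right _ _), (le_max_right _ _).trans (le_max_right _ _)⟩
  obtain ⟨c, hc⟩ : ∃ c, c + 1 = (N.factorial) ^ 2 :=
    ⟨(N.factorial) ^ 2 - 1, Nat.sub_add_cancel (Nat.one_le_pow _ _ (Nat.factorial_pos N))⟩
  have hcd : (N.factorial) ^ 2 ∣ c + 1 := by rw [hc]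
  have hne : ∀ i ∈ Finset.range n, mm c i ≠ 0 := fun i hi => by
    have := mm_two_le hnN (by omega : 3 ≤ N) hcd (Finset.mem_range.1 hi)
    omega
  have hcop : Set.Pairwise (↑(Finset.range n)) (Function.onFun Nat.Coprime (mm c)) := by
    intro i hi j hj hij
    exact mm_coprime hnN hcd (Finset.mem_range.1 (Finset.mem_coe.1 hi))
      (Finset.mem_range.1 (Finset.mem_coe.1 hj)) hij
  choose a ha using fun j : β =>
    (⟨(Nat.chineseRemainderOfFinset (fun i => Y i j) (mm c) (Finset.range n) hne hcop).1,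
      (Nat.chineseRemainderOfFinset (fun i => Y i j) (mm c) (Finset.range n) hne hcop).2⟩ :
      ∃ k, ∀ i ∈ Finset.range n, k ≡ Y i j [MOD mm c i])
  refine ⟨B, N, c, a, hnN, hBN, hQN, hcd, ?_, fun j => ?_⟩
  · rw [← mm_prod hnN hcd, Nat.cast_prod]
    refine Finset.prod_dvd_of_coprime ?_ ?_
    · intro i hi j hj hij
      exact Nat.isCoprime_iff_coprime.2 (hcop hi hj hij)
    · intro i hi
      have hi' := Finset.mem_range.1 hi
      have h1 : P c a ≡ P i (Y i) [ZMOD (mm c i : ℕ)] := by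
        refine hcong _ _ _ _ _ (modEq_mm hnN hcd hi') fun j => ?_
        exact Int.natCast_modEq_iff.2 (ha j i hi)
      rw [hY i hi'] at h1
      exact Int.modEq_zero_iff_dvd.1 h1
  · rw [← mm_prod hnN hcd]
    refine Finset.prod_dvd_of_isRelPrime ?_ ?_
    · intro i hi j hj hij
      exact Nat.coprime_iff_isRelPrime.1 (hcop hi hj hij)
    · intro i hi
      exact dvd_of_residue (hB i (Finset.mem_range.1 hi) j)
        (Int.natCast_modEq_iff.2 (ha j i hi)).symm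

end DP54
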