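import Pool.Agent.DP54.Rec
import Mathlib.Computability.Halting
import Mathlib.Algebra.MvPolynomial.Eval
import Mathlib.Algebra.MvPolynomial.Rename

/-!
# DP54.Final: an undecidable Diophantine set.
-/

namespace DP54

open Dioph Vector3 Fin2

theorem dg_of_partrec {g : ℕ →. ℕ} (hg : Nat.Partrec g) : DG g := by
  induction hg with
  | zero =>
    intro α x y hx hy
    refine Dioph.ext (eq_dioph hy (const_dioph 0)) fun v => ?_
    simp [pure, PFun.pure]
  | succ =>
    intro α x y hx hy
    refine Dioph.ext (eq_dioph hy (add_dioph hx (const_dioph 1))) fun v => ?_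
    simp [PFun.coe_val]
  | left =>
    intro α x y hx hy
    refine Dioph.ext (eq_dioph hy (unpair_fst_dioph hx)) fun v => ?_
    simp [PFun.coe_val]
  | right =>
    intro α x y hx hy
    refine Dioph.ext (eq_dioph hy (unpair_snd_dioph hx)) fun v => ?_
    simp [PFun.coe_val]
  | pair _ _ ihf ihg => exact dg_pair ihf ihg
  | comp _ _ ihf ihg => exact dg_comp ihf ihg
  | prec _ _ ihf ihg => exact dg_prec ihf ihg
  | rfind _ ihf => exact dg_rfind ihf

/-- The halting set is Diophantine and not computable. -/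
theorem exists_dioph_not_computable :
    ∃ S : ℕ → Prop, Dioph {v : Fin2 1 → ℕ | S (v Fin2.fz)} ∧ ¬ ComputablePred S := by
  have hg : Nat.Partrec fun n : ℕ => Nat.Partrec.Code.eval (Denumerable.ofNat Nat.Partrec.Code n) 0 := by
    rw [← Partrec.nat_iff]
    exact Nat.Partrec.Code.eval_part.comp
      ((Primrec.ofNat Nat.Partrec.Code).to_comp) (Computable.const 0)
  refine ⟨fun n => (Nat.Partrec.Code.eval (Denumerable.ofNat Nat.Partrec.Code n) 0).Dom, ?_, ?_⟩
  · have h : Dioph {v : Fin2 1 → ℕ | ∃ y,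
        y ∈ Nat.Partrec.Code.eval (Denumerable.ofNat Nat.Partrec.Code (v Fin2.fz)) 0} := by
      refine ex (P := fun v y => y ∈ Nat.Partrec.Code.eval
        (Denumerable.ofNat Nat.Partrec.Code (v Fin2.fz)) 0) ?_
      exact dg_of_partrec hg (proj_dioph (some Fin2.fz)) (proj_dioph none)
    refine Dioph.ext h fun v => ?_
    simp only [Set.mem_ofPred_eq]
    exact Part.dom_iff_mem.symm
  · intro hS
    refine ComputablePred.halting_problem 0 ?_
    have h2 : ComputablePred fun c : Nat.Partrec.Code =>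
        (Nat.Partrec.Code.eval (Denumerable.ofNat Nat.Partrec.Code (Encodable.encode c)) 0).Dom := by
      obtain ⟨hd, hc⟩ := hS
      exact ⟨fun c => hd (Encodable.encode c), hc.comp Computable.encode⟩
    simpa using h2

/-- Every `Poly` is given by an `MvPolynomial`. -/
theorem poly_mvPolynomial {γ : Type} (p : Poly γ) :
    ∃ P : MvPolynomial γ ℤ, ∀ v : γ → ℕ, MvPolynomial.eval (fun i => (v i : ℤ)) P = p v := by
  induction p using Poly.induction with
  | H1 i => exact ⟨MvPolynomial.X i, fun v => by simp⟩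
  | H2 n => exact ⟨MvPolynomial.C n, fun v => by simp⟩
  | H3 f g hf hg =>
    obtain ⟨P, hP⟩ := hf
    obtain ⟨Q, hQ⟩ := hg
    exact ⟨P - Q, fun v => by simp [hP, hQ]⟩
  | H4 f g hf hg =>
    obtain ⟨P, hP⟩ := hf
    obtain ⟨Q, hQ⟩ := hg
    exact ⟨P * Q, fun v => by simp [hP, hQ]⟩

/-- Polynomial form: one integer polynomial `P` in `c, x_0, ..., x_(k-1)` such that solvability in
natural numbers `x` is not a computable predicate of `c`. -/
theorem exists_mvPolynomial_not_computable :
    ∃ (k : ℕ) (P : MvPolynomial (Fin (k + 1)) ℤ),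
      ¬ ComputablePred (fun c : ℕ => ∃ x : Fin k → ℕ,
        MvPolynomial.eval (Fin.cons (c : ℤ) fun i => (x i : ℤ)) P = 0) := by
  obtain ⟨S, hD, hS⟩ := exists_dioph_not_computable
  obtain ⟨k, p, hp⟩ := finite_dummies hD
  obtain ⟨P, hP⟩ := poly_mvPolynomial p
  refine ⟨k, MvPolynomial.rename (Sum.elim (fun _ => 0) Fin.succ) P, ?_⟩
  intro hc
  apply hS
  refine hc.of_eq fun c => ?_
  have key : ∀ x : Fin k → ℕ,
      MvPolynomial.eval (Fin.cons (c : ℤ) fun i => (x i : ℤ))
        (MvPolynomial.rename (Sum.elim (fun _ => 0) Fin.succ) P) =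
      p (Sum.elim (fun _ => c) x) := by
    intro x
    rw [MvPolynomial.eval_rename, ← hP]
    congr 2
    funext i
    rcases i with i | i <;> simp
  have h := hp fun _ => c
  simp only [Set.mem_ofPred_eq] at h
  rw [h]
  simp only [key]

end DP54
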