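import Pool.Agent.DP54.Basic
import Mathlib.Logic.Godel.GodelBetaFunction

/-!
# DP54.Pair: Cantor-style pairing (`Nat.pair`) and Goedel's beta function are Diophantine.
-/

namespace DP54

open Dioph Vector3 Fin2

theorem pair_dioph {α : Type} {f g : (α → ℕ) → ℕ} (df : DiophFn f) (dg : DiophFn g) :
    DiophFn fun v => Nat.pair (f v) (g v) := by
  have df' : DiophFn fun w : Option α → ℕ => f (w ∘ some) := lift df
  have dg' : DiophFn fun w : Option α → ℕ => g (w ∘ some) := lift dg
  have dn : DiophFn fun w : Option α → ℕ => w none := new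
  have h1 : Dioph {w : Option α → ℕ | f (w ∘ some) < g (w ∘ some) ∧
      g (w ∘ some) * g (w ∘ some) + f (w ∘ some) = w none} :=
    (lt_dioph df' dg').inter
      (eq_dioph (add_dioph (mul_dioph dg' dg') df') dn)
  have h2 : Dioph {w : Option α → ℕ | g (w ∘ some) ≤ f (w ∘ some) ∧
      f (w ∘ some) * f (w ∘ some) + f (w ∘ some) + g (w ∘ some) = w none} :=
    (le_dioph dg' df').inter
      (eq_dioph (add_dioph (add_dioph (mul_dioph df' df') df') dg') dn)
  refine Dioph.ext (h1.union h2) fun w => ?_
  simp only [Set.mem_union, Set.mem_setOf_eq, Nat.pair]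
  by_cases hlt : f (w ∘ some) < g (w ∘ some)
  · simp [hlt, not_le.mpr hlt]
  · simp [hlt, not_lt.mp hlt]

theorem unpair_fst_dioph {α : Type} {f : (α → ℕ) → ℕ} (df : DiophFn f) :
    DiophFn fun v => (Nat.unpair (f v)).1 := by
  have h : Dioph {w : Option α → ℕ | ∃ b, Nat.pair (w none) b = f (w ∘ some)} := by
    refine ex (α := Option α) (P := fun w b => Nat.pair (w none) b = f (w ∘ some)) ?_
    exact eq_dioph (pair_dioph (proj_dioph (some none)) (proj_dioph none))
      (re (some ∘ some) df)
  refine Dioph.ext h fun w => ?_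
  constructor
  · rintro ⟨b, hb⟩
    show (Nat.unpair (f (w ∘ some))).1 = w none
    rw [← hb, Nat.unpair_pair]
  · intro hw
    refine ⟨(Nat.unpair (f (w ∘ some))).2, ?_⟩
    have hw' : (Nat.unpair (f (w ∘ some))).1 = w none := hw
    rw [← hw', Nat.pair_unpair]

theorem unpair_snd_dioph {α : Type} {f : (α → ℕ) → ℕ} (df : DiophFn f) :
    DiophFn fun v => (Nat.unpair (f v)).2 := by
  have h : Dioph {w : Option α → ℕ | ∃ a, Nat.pair a (w none) = f (w ∘ some)} := by
    refine ex (α := Option α) (P := fun w a => Nat.pair a (w none) = f (w ∘ some)) ?_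
    exact eq_dioph (pair_dioph (proj_dioph none) (proj_dioph (some none)))
      (re (some ∘ some) df)
  refine Dioph.ext h fun w => ?_
  constructor
  · rintro ⟨b, hb⟩
    show (Nat.unpair (f (w ∘ some))).2 = w none
    rw [← hb, Nat.unpair_pair]
  · intro hw
    refine ⟨(Nat.unpair (f (w ∘ some))).1, ?_⟩
    have hw' : (Nat.unpair (f (w ∘ some))).2 = w none := hw
    rw [← hw', Nat.pair_unpair]

theorem beta_dioph {α : Type} {f g : (α → ℕ) → ℕ} (df : DiophFn f) (dg : DiophFn g) :
    DiophFn fun v => Nat.beta (f v) (g v) := by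
  have h : DiophFn fun v => (Nat.unpair (f v)).1 % ((g v + 1) * (Nat.unpair (f v)).2 + 1) :=
    mod_dioph (unpair_fst_dioph df)
      (add_dioph (mul_dioph (add_dioph dg (const_dioph 1)) (unpair_snd_dioph df))
        (const_dioph 1))
  exact h

end DP54
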