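import Pool.Agent.DP54.BForall
import Pool.Agent.DP54.Pair
import Mathlib.Computability.Partrec

/-!
# DP54.Rec: graphs of partial recursive functions are Diophantine.
-/

namespace DP54

open Dioph Vector3 Fin2

/-- The graph of the partial function `g` is Diophantine, in composable form. -/
def DG (g : ℕ →. ℕ) : Prop :=
  ∀ {α : Type} {x y : (α → ℕ) → ℕ}, DiophFn x → DiophFn y → Dioph {v | y v ∈ g (x v)}

/-- Primitive recursion: `y ∈ prec f g (a,n)` iff there is a beta code `s` with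
`beta s 0 ∈ f a`, `beta s n = y` and `beta s (i+1) ∈ g (pair a (pair i (beta s i)))` for `i < n`. -/
theorem mem_prec_iff (f g : ℕ →. ℕ) (a n y : ℕ) :
    (y ∈ (n.rec (f a) fun y IH => do
        let i ← IH
        g (Nat.pair a (Nat.pair y i)) : Part ℕ)) ↔
      ∃ s : ℕ, Nat.beta s 0 ∈ f a ∧ Nat.beta s n = y ∧
        ∀ i < n, Nat.beta s (i + 1) ∈ g (Nat.pair a (Nat.pair i (Nat.beta s i))) := by
  constructor
  · intro hy
    have key : ∀ (n y : ℕ), (y ∈ (n.rec (f a) fun y IH => do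
        let i ← IH
        g (Nat.pair a (Nat.pair y i)) : Part ℕ)) →
        ∃ h : ℕ → ℕ, h 0 ∈ f a ∧ h n = y ∧
          ∀ i < n, h (i + 1) ∈ g (Nat.pair a (Nat.pair i (h i))) := by
      intro n
      induction n with
      | zero =>
        intro y hy
        exact ⟨fun _ => y, hy, rfl, fun i hi => absurd hi (Nat.not_lt_zero i)⟩
      | succ n ih =>
        intro y hy
        obtain ⟨z, hz, hyz⟩ := Part.mem_bind_iff.1 hy
        obtain ⟨h, h0, hn, hs⟩ := ih z hz
        refine ⟨fun i => if i = n + 1 then y else h i, ?_, ?_, ?_⟩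
        · simpa using h0
        · simp
        · intro i hi
          rcases Nat.lt_succ_iff_lt_or_eq.1 hi with hlt | rfl
          · have h1 : ¬ (i + 1 = n + 1) := by omega
            have h2 : ¬ (i = n + 1) := by omega
            simp only [h1, h2, if_false]
            exact hs i hlt
          · have h2 : ¬ (i = i + 1) := by omega
            simp only [h2, if_false, if_true, hn]
            exact hyz
    obtain ⟨h, h0, hn, hs⟩ := key n y hy
    have hb : ∀ i, i ≤ n → Nat.beta (Nat.unbeta (List.ofFn fun i : Fin (n + 1) => h i)) i = h i := by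
      intro i hi
      have hlen : (List.ofFn fun i : Fin (n + 1) => h i).length = n + 1 := List.length_ofFn
      refine (Nat.beta_unbeta_coe (List.ofFn fun i : Fin (n + 1) => h i)
        ⟨i, by rw [hlen]; omega⟩).trans ?_
      rw [Fin.getElem_fin, List.getElem_ofFn]
    refine ⟨Nat.unbeta (List.ofFn fun i : Fin (n + 1) => h i), ?_, ?_, ?_⟩
    · rw [hb 0 (Nat.zero_le _)]; exact h0
    · rw [hb n le_rfl]; exact hn
    · intro i hi
      rw [hb (i + 1) hi, hb i hi.le]
      exact hs i hi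
  · rintro ⟨s, h0, hn, hs⟩
    have key : ∀ i, i ≤ n → (Nat.beta s i ∈ (i.rec (f a) fun y IH => do
        let i ← IH
        g (Nat.pair a (Nat.pair y i)) : Part ℕ)) := by
      intro i
      induction i with
      | zero => intro _; exact h0
      | succ i ih =>
        intro hi
        exact Part.mem_bind_iff.2 ⟨_, ih (by omega), hs i (by omega)⟩
    rw [← hn]
    exact key n le_rfl

theorem dg_prec {f g : ℕ →. ℕ} (hf : DG f) (hg : DG g) :
    DG (Nat.unpaired fun a n => n.rec (f a) fun y IH => do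
      let i ← IH
      g (Nat.pair a (Nat.pair y i))) := by
  intro α x y dx dy
  refine Dioph.ext (S := {v : α → ℕ | ∃ s : ℕ, Nat.beta s 0 ∈ f (Nat.unpair (x v)).1 ∧
    Nat.beta s (Nat.unpair (x v)).2 = y v ∧
    ∀ i < (Nat.unpair (x v)).2, Nat.beta s (i + 1) ∈
      g (Nat.pair (Nat.unpair (x v)).1 (Nat.pair i (Nat.beta s i)))}) ?_
    (fun v => (mem_prec_iff f g (Nat.unpair (x v)).1 (Nat.unpair (x v)).2 (y v)).symm)
  refine ex (P := fun v s => Nat.beta s 0 ∈ f (Nat.unpair (x v)).1 ∧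
    Nat.beta s (Nat.unpair (x v)).2 = y v ∧
    ∀ i < (Nat.unpair (x v)).2, Nat.beta s (i + 1) ∈
      g (Nat.pair (Nat.unpair (x v)).1 (Nat.pair i (Nat.beta s i)))) ?_
  have h1 := hf (unpair_fst_dioph (lift dx)) (beta_dioph new (const_dioph 0))
  have h2 := eq_dioph (beta_dioph new (unpair_snd_dioph (lift dx))) (lift dy)
  have h3 := ball (unpair_snd_dioph (lift dx))
    (P := fun (w : Option α → ℕ) i => Nat.beta (w none) (i + 1) ∈
      g (Nat.pair (Nat.unpair (x (w ∘ some))).1 (Nat.pair i (Nat.beta (w none) i))))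
    (hg (pair_dioph (lift (unpair_fst_dioph (lift dx)))
      (pair_dioph new (beta_dioph (lift new) new)))
      (beta_dioph (lift new) (add_dioph new (const_dioph 1))))
  exact h1.inter (h2.inter h3)

theorem dg_rfind {f : ℕ →. ℕ} (hf : DG f) :
    DG fun a => Nat.rfind fun n => (fun m => decide (m = 0)) <$> f (Nat.pair a n) := by
  intro α x y dx dy
  refine Dioph.ext (S := {v : α → ℕ | 0 ∈ f (Nat.pair (x v) (y v)) ∧
    ∀ m < y v, ∃ k : ℕ, k + 1 ∈ f (Nat.pair (x v) m)}) ?_ (fun v => ?_)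
  · have h1 := hf (pair_dioph dx dy) (const_dioph 0)
    have h2 := ball dy (P := fun (v : α → ℕ) m => ∃ k : ℕ, k + 1 ∈ f (Nat.pair (x v) m))
      (ex (P := fun (w : Option α → ℕ) k => k + 1 ∈ f (Nat.pair (x (w ∘ some)) (w none)))
        (hf (pair_dioph (lift (lift dx)) (lift new)) (add_dioph new (const_dioph 1))))
    exact h1.inter h2
  · simp only [Set.mem_ofPred_eq, Nat.mem_rfind, Part.map_eq_map, Part.mem_map_iff,
      decide_eq_true_eq, decide_eq_false_iff_not]
    constructor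
    · rintro ⟨h0, h1⟩
      refine ⟨⟨0, h0, rfl⟩, fun {m} hm => ?_⟩
      obtain ⟨k, hk⟩ := h1 m hm
      exact ⟨k + 1, hk, Nat.succ_ne_zero k⟩
    · rintro ⟨⟨z, hz, rfl⟩, h1⟩
      refine ⟨hz, fun m hm => ?_⟩
      obtain ⟨k, hk, hk0⟩ := h1 hm
      exact ⟨k - 1, by rwa [Nat.sub_add_cancel (Nat.one_le_iff_ne_zero.2 hk0)]⟩

theorem dg_comp {f g : ℕ →. ℕ} (hf : DG f) (hg : DG g) : DG fun n => g n >>= f := by
  intro α x y dx dy
  refine Dioph.ext (S := {v : α → ℕ | ∃ z, z ∈ g (x v) ∧ y v ∈ f z}) ?_ (fun v => ?_)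
  · exact ex (P := fun (v : α → ℕ) z => z ∈ g (x v) ∧ y v ∈ f z)
      ((hg (lift dx) new).inter (hf new (lift dy)))
  · exact (Part.mem_bind_iff (f := g (x v)) (g := f)).symm

theorem dg_pair {f g : ℕ →. ℕ} (hf : DG f) (hg : DG g) :
    DG fun n => Nat.pair <$> f n <*> g n := by
  intro α x y dx dy
  refine Dioph.ext (S := {v : α → ℕ | ∃ a, a ∈ f (x v) ∧ ∃ b, b ∈ g (x v) ∧ Nat.pair a b = y v})
    ?_ (fun v => ?_)
  · refine ex (P := fun (v : α → ℕ) a => a ∈ f (x v) ∧ ∃ b, b ∈ g (x v) ∧ Nat.pair a b = y v)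
      ((hf (lift dx) new).inter ?_)
    refine ex (P := fun (w : Option α → ℕ) b => b ∈ g (x (w ∘ some)) ∧
      Nat.pair (w none) b = y (w ∘ some)) ((hg (lift (lift dx)) new).inter ?_)
    exact eq_dioph (pair_dioph (lift new) new) (lift (lift dy))
  · simp only [Set.mem_ofPred_eq, Seq.seq, Part.mem_bind_iff, Part.map_eq_map, Part.mem_map_iff]
    constructor
    · rintro ⟨a, ha, b, hb, h⟩
      exact ⟨Nat.pair a, ⟨a, ha, rfl⟩, b, hb, h⟩
    · rintro ⟨_, ⟨a, ha, rfl⟩, b, hb, h⟩
      exact ⟨a, ha, b, hb, h⟩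

end DP54
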